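import Pool.Agent.W458.FJ.Stm

/-!
Part FJ-SUM (helper89).
-/

namespace Pool.Agent.W89.FJ.SUM

open Finset

lemma tot_aux (m M : ℕ) (hm : 0 < m) (hM : m ≤ M) :
    m - 1 = ∑ h ∈ Finset.Icc 2 M, if h ∣ m then Nat.totient h else 0 := by
  have h1 := Nat.sum_totient m
  have h2 : m.divisors = (Finset.Icc 1 M).filter (fun h => h ∣ m) := by
    ext h
    simp only [Nat.mem_divisors, Finset.mem_filter, Finset.mem_Icc]
    constructor
    · rintro ⟨h1, _⟩
      exact ⟨⟨Nat.pos_of_dvd_of_pos h1 hm, (Nat.le_of_dvd hm h1).trans hM⟩, h1⟩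
    · rintro ⟨_, h1⟩
      exact ⟨h1, hm.ne'⟩
  rw [h2, Finset.sum_filter] at h1
  have h3 : Finset.Icc 1 M = insert 1 (Finset.Icc 2 M) := by
    ext h
    simp only [Finset.mem_insert, Finset.mem_Icc]
    omega
  rw [h3, Finset.sum_insert (by simp)] at h1
  simp only [one_dvd, if_true, Nat.totient_one] at h1
  omega

theorem main : Pool.Agent.W458.FJ.SUM := by
  intro ι S b hb L₁ L₂ D₁ D₂ hL₁ hL₂ hD₁ hD₂ hyp
  set M := ∑ i ∈ S, b i + L₁ + L₂ + D₁ + D₂ with hM
  have e1 : ∀ i ∈ S, b i - 1 = ∑ h ∈ Finset.Icc 2 M, if h ∣ b i then Nat.totient h else 0 := by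
    intro i hi
    refine tot_aux _ _ (hb i hi) ?_
    have := Finset.single_le_sum (f := b) (fun j _ => Nat.zero_le _) hi
    omega
  rw [Finset.sum_congr rfl e1, Finset.sum_comm, tot_aux L₁ M hL₁ (by omega),
    tot_aux L₂ M hL₂ (by omega), tot_aux D₁ M hD₁ (by omega), tot_aux D₂ M hD₂ (by omega),
    ← Finset.sum_add_distrib, ← Finset.sum_add_distrib, ← Finset.sum_add_distrib]
  refine Finset.sum_le_sum fun h hh => ?_
  have h2 : 1 < h := (Finset.mem_Icc.1 hh).1
  have h3 := Nat.mul_le_mul_right (Nat.totient h) (hyp h h2)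
  rw [← Finset.sum_filter, Finset.sum_const, smul_eq_mul]
  unfold Pool.Agent.W458.FJ.cnt Pool.Agent.W458.FJ.dl at h3
  have e2 : ∀ x : ℕ, (if h ∣ x then Nat.totient h else 0) =
      (if h ∣ x then 1 else 0) * Nat.totient h := by
    intro x; split_ifs <;> simp
  rw [e2, e2, e2, e2]
  calc _ = ((S.filter fun i => h ∣ b i).card + ((if h ∣ L₁ then 1 else 0) +
        (if h ∣ L₂ then 1 else 0))) * Nat.totient h := by ring
    _ ≤ _ := h3
    _ = _ := by ring

end Pool.Agent.W89.FJ.SUM
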